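import Pool.Agent.TH442.NF.Std
import Pool.Agent.TH167.SH.Final

set_option autoImplicit false

/-!
# The Harbourne-Hirschowitz conjecture for the classes which reduce to a class of a given list
-/

namespace Pool.Agent.TH442.NF

open MvPolynomial Pool.Agent.W609 Pool.Agent.W609.CR Pool.Agent.TH167 Pool.Agent.TH167.SH
  Pool.Agent.H932R3

/-- A special system is `(-1)`-special, or it reduces to a special reduced class outside of the
list. -/
theorem hh_list {r : ℕ} {Q : ℕ → (Fin (r + 4) → ℕ) → Prop}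
    (hQ : ∀ {K : Type} [Field K] [CharZero K] {P : Fin (r + 4) → Fin 2 → K},
      AlgebraicIndependent ℚ (fun ij : Fin (r + 4) × Fin 2 => P ij.1 ij.2) →
        ∀ {d1 : ℕ} {w1 : Fin (r + 4) → ℕ}, Reduced d1 w1 → Q d1 w1 → ExpDim K w1 P d1)
    (d : ℕ) (w : Fin (r + 4) → ℕ) :
    ∃ F : MvPolynomial (Fin (r + 4) × Fin 2) ℚ, F ≠ 0 ∧ ∀ (K : Type) [Field K] [CharZero K]
      (P : Fin (r + 4) → Fin 2 → K), evP P F ≠ 0 → SH.Special P d w →
        MSpecial P d w ∨ ∃ (d' : ℕ) (w' : Fin (r + 4) → ℕ) (k : ℕ)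
          (C : Fin k → MvPolynomial (Fin 3) K) (e : Fin k → ℕ) (u : Fin k → Fin (r + 4) → ℕ)
          (N : Fin k → ℕ) (d1 : ℕ) (w1 : Fin (r + 4) → ℕ),
          Dcp P d w d' w' C e u N ∧ Relation.ReflTransGen Quad (d', w') (d1, w1) ∧
          Reduced d1 w1 ∧ SH.Special P d1 w1 ∧ ¬ Q d1 w1 := by
  classical
  obtain ⟨g, Fg, hFg, hg⟩ := dim_gen w d
  obtain ⟨K0, i1, i2, P0, hP0⟩ := SH.exists_generic (r + 4)
  rcases Nat.eq_zero_or_pos g with hg0 | hg0
  · refine ⟨Fg, hFg, fun K _ _ P hP hs => ?_⟩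
    exfalso
    rw [special_iff, hg K P hP, hg0] at hs
    omega
  · have hg1 := hg K0 P0 (evP_ne hP0 hFg)
    obtain ⟨M, hM⟩ : ∃ M, ∀ j, w j ≤ M := ⟨∑ j, w j, fun j =>
      Finset.single_le_sum (fun _ _ => Nat.zero_le _) (Finset.mem_univ j)⟩
    have hw : Few M d w := by
      left
      rw [Finset.filter_false_of_mem fun j _ => not_lt.2 (hM j)]
      simp
    obtain ⟨d', w', k, C0, e, u, N, hD, hdim, P1, d1, w1, hP1, hchain, hfew, hred, hdim1⟩ :=
      main d P0 hP0 w hw (by rw [hg1]; exact hg0)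
    obtain ⟨g', Fg', hFg', hg'⟩ := dim_gen w' d'
    obtain ⟨g1, Fg1, hFg1, hg1'⟩ := dim_gen w1 d1
    have hge : g' = g := by
      rw [← hg' K0 P0 (evP_ne hP0 hFg'), hdim, hg1]
    have hg1e : g1 = g := by
      rw [← hg1' K0 P1 (evP_ne hP1 hFg1), hdim1, hdim, hg1]
    have hspr := fun a => exc_spread (e a) (u a) ⟨K0, i1, i2, P0, C0 a, hP0, hD.exc a⟩
    choose Fa hFa hFa' using hspr
    refine ⟨Fg * Fg' * Fg1 * ∏ a, Fa a, mul_ne_zero (mul_ne_zero (mul_ne_zero hFg hFg') hFg1)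
      (Finset.prod_ne_zero_iff.2 fun a _ => hFa a), fun K _ _ P hP hs => ?_⟩
    rw [map_mul, map_mul, map_mul, map_prod] at hP
    have q0 := hg K P (left_ne_zero_of_mul (left_ne_zero_of_mul (left_ne_zero_of_mul hP)))
    have q1 := hg' K P (right_ne_zero_of_mul (left_ne_zero_of_mul (left_ne_zero_of_mul hP)))
    have q2 := hg1' K P (right_ne_zero_of_mul (left_ne_zero_of_mul hP))
    have q3 := Finset.prod_ne_zero_iff.1 (right_ne_zero_of_mul hP)
    choose C hC using fun a => hFa' a K P (q3 a (Finset.mem_univ a))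
    have hDcp : Dcp P d w d' w' C e u N := ⟨hC, hD.pos, hD.orth, hD.deg, hD.mul, hD.zero⟩
    obtain ⟨c1, c2, c3⟩ := quad_inv hchain
    simp only at c1 c2 c3
    rw [special_iff, q0] at hs
    by_cases hns : chi d1 w1 = g
    · left
      refine ⟨d', w', k, C, e, u, N, hDcp, by omega, ?_⟩
      by_contra hcon
      push Not at hcon
      have h2 := hDcp.chi_one hcon
      omega
    · right
      refine ⟨d', w', k, C, e, u, N, d1, w1, hDcp, hchain, hred, ?_, ?_⟩
      · rw [special_iff, q2]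
        have h3 := chi_le_dim P d1 w1
        rw [q2] at h3
        constructor
        · omega
        · rw [hg1e] at h3 ⊢
          omega
      · intro hq
        have h1 := hQ hP1 hred hq
        rw [expDim_iff, hdim1, hdim, hg1] at h1
        rcases max_choice (0 : ℤ) (chi d1 w1) with h | h
        · omega
        · omega

/-- Multiplication of the conditions. -/
theorem spec_of_mspec {K : Type} [Field K] {s : ℕ} {P : Fin s → Fin 2 → K} {d : ℕ}
    {w : Fin s → ℕ} (h : SHDefs.MinusOneSpecial P d w) : SHDefs.Special P d w := by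
  rw [mspecial_conv] at h
  rw [special_conv]
  exact h.special

/-- In the terms of the definitions of the problem. -/
theorem hh_open {n : ℕ} (hn : 4 ≤ n) {Q : ℕ → (Fin n → ℕ) → Prop}
    (hQ : ∀ {K : Type} [Field K] [CharZero K] {P : Fin n → Fin 2 → K},
      AlgebraicIndependent ℚ (fun ij : Fin n × Fin 2 => P ij.1 ij.2) →
        ∀ {d1 : ℕ} {w1 : Fin n → ℕ}, Reduced d1 w1 → Q d1 w1 → ExpDim K w1 P d1)
    (d : ℕ) (w : Fin n → ℕ) :
    ∃ F : MvPolynomial (Fin n × Fin 2) ℂ, F ≠ 0 ∧ ∀ P : Fin n → Fin 2 → ℂ,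
      MvPolynomial.eval (fun ij : Fin n × Fin 2 => P ij.1 ij.2) F ≠ 0 →
        (SHDefs.MinusOneSpecial P d w → SHDefs.Special P d w) ∧
        (SHDefs.Special P d w → SHDefs.MinusOneSpecial P d w ∨
          ∃ (d' : ℕ) (w' : Fin n → ℕ) (k : ℕ)
          (C : Fin k → MvPolynomial (Fin 3) ℂ) (e : Fin k → ℕ) (u : Fin k → Fin n → ℕ)
          (N : Fin k → ℕ) (d1 : ℕ) (w1 : Fin n → ℕ),
          SHDefs.Decomp P d w d' w' C e u N ∧
          Relation.ReflTransGen SHDefs.Quadratic (d', w') (d1, w1) ∧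
          (∀ i j k, i ≠ j → i ≠ k → j ≠ k → w1 i + w1 j + w1 k ≤ d1) ∧
          SHDefs.Special P d1 w1 ∧ ¬ Q d1 w1) := by
  obtain ⟨r, rfl⟩ : ∃ r, n = r + 4 := ⟨n - 4, by omega⟩
  obtain ⟨F, hF, hF'⟩ := hh_list hQ d w
  refine ⟨F.map (algebraMap ℚ ℂ), map_ne hF, fun P hP => ⟨spec_of_mspec, fun hs => ?_⟩⟩
  rw [evP_eval] at hP
  rw [special_conv] at hs
  rcases hF' ℂ P hP hs with h | ⟨d', w', k, C, e, u, N, d1, w1, h1, h2, h3, h4, h5⟩
  · exact Or.inl ((mspecial_conv P d w).2 h)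
  · exact Or.inr ⟨d', w', k, C, e, u, N, d1, w1, decomp_iff.2 h1, chain_conv h2, h3,
      (special_conv P d1 w1).2 h4, h5⟩

end Pool.Agent.TH442.NF
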