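import Pool.Agent.TH442.NF.Orbit2

set_option autoImplicit false

/-!
# The Weyl group orbits of the classes of expected dimension
-/

namespace Pool.Agent.TH442.NF

open MvPolynomial Pool.Agent.W609 Pool.Agent.W609.CR Pool.Agent.TH167 Pool.Agent.TH167.SH
  Pool.Agent.H932R3

/-- Classes above the window. -/
theorem case_above {K : Type} [Field K] [CharZero K] {n : ℕ} (hn : 10 ≤ n) {P : Fin n → Fin 2 → K}
    (hP : AlgebraicIndependent ℚ (fun ij : Fin n × Fin 2 => P ij.1 ij.2)) {d : ℕ} {w : Fin n → ℕ}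
    {d' : ℕ} {w' : Fin n → ℕ} (h : Ch (cls d w) (cls d' w')) {M : ℕ} (hM : ∀ i, w' i ≤ M)
    (h1 : √(n : ℝ) * (2 * M + 1) + min (√(n : ℝ) - 3) (2 / 3 + 1 / (4 * √(n : ℝ))) <
      2 * (d' : ℝ) + 3) : ExpDim K w P d := by
  have hnR : (10 : ℝ) ≤ n := by exact_mod_cast hn
  obtain ⟨F, hF, hF'⟩ := Pool.Agent.TH885.NW.exp_cut2 hn w'
  obtain ⟨s, hs⟩ : ∃ s, s = √(n : ℝ) := ⟨_, rfl⟩
  have hss : s * s = n := by rw [hs]; exact Real.mul_self_sqrt (by linarith)
  have hs3 : 3 ≤ s := by rw [hs]; exact Real.le_sqrt_of_sq_le (by norm_num; linarith)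
  have hs0 : 0 < s := by linarith
  rw [← hs] at h1
  have hq : 0 < 1 / (4 * s) := by positivity
  have hmin : 0 ≤ min (s - 3) (2 / 3 + 1 / (4 * s)) := le_min (by linarith) (by linarith)
  refine up_nef hP h (max_nef hn hP hM ?_)
    (hF' P (fun h0 => hF (hP.eq_zero_of_aeval_eq_zero F h0)) d'
      (Or.inr (Or.inr ⟨M, fun i => (hM i).trans (Nat.le_succ M), ?_⟩)))
  · rw [← hs]
    nlinarith
  · have hmax : (∑ i, ((max (w' i) M : ℕ) : ℝ)) = n * M := by
      rw [Finset.sum_congr rfl fun i _ => by rw [max_eq_right (hM i)]]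
      simp
    rw [hmax, ← hs]
    have h2 := mul_lt_mul_of_pos_right h1 hs0
    rcases min_choice (s - 3) (2 / 3 + 1 / (4 * s)) with h | h
    · left
      rw [h] at h2
      nlinarith
    · right
      rw [h] at h2
      have e1 : 1 / (4 * s) * s = 1 / 4 := by field_simp
      have e2 : (2 / 3 + 1 / (4 * s)) * s = 2 / 3 * s + 1 / 4 := by rw [add_mul, e1]
      rw [add_mul, e2] at h2
      nlinarith

/-- Near-uniform classes outside of the window. -/
theorem case_near {K : Type} [Field K] [CharZero K] {n : ℕ} (hn : 10 ≤ n) {P : Fin n → Fin 2 → K}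
    (hP : AlgebraicIndependent ℚ (fun ij : Fin n × Fin 2 => P ij.1 ij.2)) {d : ℕ} {w : Fin n → ℕ}
    {d' : ℕ} {w' : Fin n → ℕ} (h : Ch (cls d w) (cls d' w')) {M : ℕ} (hM : ∀ i, w' i ≤ M)
    (hnef : √(n : ℝ) * M ≤ d') {m : ℕ} (hm : 1 ≤ m) (hw' : ∀ i, w' i = m ∨ w' i = m + 1)
    (h1 : 2 * (d' : ℝ) + 3 < √(n : ℝ) + 2 * (∑ i, (w' i : ℝ)) / √(n : ℝ) -
        min (√(n : ℝ) - 3) (2 / 3 + 9 / (4 * √(n : ℝ))) ∨
      √(n : ℝ) + 2 * (∑ i, (w' i : ℝ)) / √(n : ℝ) +
        min (√(n : ℝ) - 3) (2 / 3 + 1 / (4 * √(n : ℝ))) < 2 * (d' : ℝ) + 3) :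
    ExpDim K w P d := by
  refine up_nef hP h (max_nef hn hP hM hnef) ?_
  obtain ⟨E, hE, hE'⟩ := Pool.Agent.TH885.NW.exp_near2 (L := K) hn hm hw'
  refine hE' P (fun h0 => hE (hP.eq_zero_of_aeval_eq_zero E h0)) d' ?_
  unfold Pool.Agent.TH885.NW.upW Pool.Agent.TH885.NW.loW
  rcases h1 with h | h
  · right; linarith
  · left; linarith

/-- The largest uniform class has positive Euler characteristic. -/
theorem case_below {K : Type} [Field K] [CharZero K] {n : ℕ} (hn : 37 ≤ n)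
    {P : Fin n → Fin 2 → K}
    (hP : AlgebraicIndependent ℚ (fun ij : Fin n × Fin 2 => P ij.1 ij.2)) {d : ℕ} {w : Fin n → ℕ}
    {d' : ℕ} {w' : Fin n → ℕ} (h : Ch (cls d w) (cls d' w')) {M : ℕ} (hM : ∀ i, w' i ≤ M)
    (h1 : n * (M + 1).choose 2 ≤ (d' + 2).choose 2) : ExpDim K w P d := by
  rcases Nat.eq_zero_or_pos M with h0 | h0
  · subst h0
    have e : w' = fun _ => 0 := funext fun i => Nat.le_zero.1 (hM i)
    subst e
    exact orbit hn hP h
  · have hnR : (37 : ℝ) ≤ n := by exact_mod_cast hn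
    refine up_nef hP h (max_nef (by omega) hP hM ?_) ?_
    · obtain ⟨s, hs⟩ : ∃ s, s = √(n : ℝ) := ⟨_, rfl⟩
      have hss : s * s = n := by rw [hs]; exact Real.mul_self_sqrt (by linarith)
      have hs6 : 6 ≤ s := by rw [hs]; exact Real.le_sqrt_of_sq_le (by norm_num; linarith)
      rw [← hs]
      by_contra hcon
      have hlt := not_le.1 hcon
      have hM1 : (1 : ℝ) ≤ M := by exact_mod_cast h0
      have e1 : (M + 1).choose 2 * 2 = (M + 1) * M := by
        rw [Nat.choose_two_right, Nat.add_sub_cancel]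
        exact Nat.div_mul_cancel (Nat.even_mul_pred_self (M + 1)).two_dvd
      have e2 : (d' + 2).choose 2 * 2 = (d' + 2) * (d' + 1) := by
        rw [Nat.choose_two_right]
        exact Nat.div_mul_cancel (Nat.even_mul_pred_self (d' + 2)).two_dvd
      have e3 : n * ((M + 1) * M) ≤ (d' + 2) * (d' + 1) := by
        rw [← e1, ← e2, ← mul_assoc]
        exact Nat.mul_le_mul_right 2 h1
      have e4 : (n : ℝ) * ((M + 1) * M) ≤ (d' + 2) * (d' + 1) := by exact_mod_cast e3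
      have e5 : ((d' : ℝ) + 2) * (d' + 1) ≤ (s * M + 2) * (s * M + 1) :=
        mul_le_mul (by linarith) (by linarith) (by positivity) (by positivity)
      rw [← hss] at e4
      nlinarith [mul_nonneg (mul_nonneg (by linarith : 0 ≤ s) (by linarith : (0 : ℝ) ≤ M))
        (by linarith : 0 ≤ s - 6)]
    · obtain ⟨F, hF, hF'⟩ := Pool.Agent.TH760.EN.expDim37 hn h0 (L := K)
      refine exp_mono (hF' P (fun h0 => hF (hP.eq_zero_of_aeval_eq_zero F h0)) d') ?_ hM
      simpa using h1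

end Pool.Agent.TH442.NF
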