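import Pool.Agent.TH442.NF.Nef
import Pool.Agent.TH885.NW.Exp2

set_option autoImplicit false

/-!
# Nef classes in the orbits of classes of expected dimension
-/

namespace Pool.Agent.TH442.NF

open MvPolynomial Pool.Agent.W609 Pool.Agent.W609.CR Pool.Agent.TH167 Pool.Agent.TH167.SH
  Pool.Agent.H932R3

theorem expDim_iff {K : Type} [Field K] {s : ℕ} (P : Fin s → Fin 2 → K) (d : ℕ) (w : Fin s → ℕ) :
    ExpDim K w P d ↔
      (Module.finrank K ↥(VS (fun j => aff (P j)) w d) : ℤ) = max 0 (chi d w) := by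
  have h1 : ExpDim K w P d ↔ Module.finrank K ↥(VS (fun j => aff (P j)) w d) =
      Nat.choose (d + 2) 2 - ∑ i, Nat.choose (w i + 1) 2 := by
    rw [← sys_eq]
    exact Iff.rfl
  have h2 : chi d w = ((d + 2).choose 2 : ℤ) - ((∑ i, (w i + 1).choose 2 : ℕ) : ℤ) := by
    unfold chi
    push_cast
    rfl
  rw [h1, h2]
  omega

/-- A nef class which is carried to a class of expected dimension has the expected dimension. -/
theorem of_chain {K : Type} [Field K] [CharZero K] {s : ℕ} {P : Fin s → Fin 2 → K}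
    (hP : AlgebraicIndependent ℚ (fun ij : Fin s × Fin 2 => P ij.1 ij.2)) {d : ℕ} {w : Fin s → ℕ}
    (h : NefAt P d w) {d' : ℕ} {w' : Fin s → ℕ}
    (hb : Relation.ReflTransGen Step (cls d w) (cls d' w'))
    (hE : ∀ P' : Fin s → Fin 2 → K,
      AlgebraicIndependent ℚ (fun ij : Fin s × Fin 2 => P' ij.1 ij.2) → ExpDim K w' P' d') :
    ExpDim K w P d := by
  obtain ⟨P', d1, w1, hP', -, he, hc, hd⟩ := chain hP h hb
  obtain ⟨rfl, rfl⟩ := cls_inj he
  rw [expDim_iff, ← hc, ← hd, ← expDim_iff]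
  exact hE P' hP'

/-- The class is nef: it meets every irreducible curve nonnegatively. -/
theorem nefAt_iff {K : Type} [Field K] {s : ℕ} {P : Fin s → Fin 2 → K} {d : ℕ} {w : Fin s → ℕ} :
    NefAt P d w ↔ ∀ (G : MvPolynomial (Fin 3) K) (e : ℕ) (u : Fin s → ℕ),
      SHDefs.Curve P G e u → 0 ≤ SHDefs.inter d w e u := by
  constructor
  · intro h G e u hG
    obtain ⟨h1, h2, h3⟩ := curve_iff.1 hG
    exact h G e u h1 h2 h3
  · intro h G e u h1 h2 h3
    exact h G e u (curve_iff.2 ⟨h1, h2, h3⟩)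

end Pool.Agent.TH442.NF
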