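import Pool.Agent.TH167.SH.Conv

set_option autoImplicit false

/-!
# Nef classes at generic points and chains of quadratic transformations
-/

namespace Pool.Agent.TH442.NF

open MvPolynomial Pool.Agent.W609 Pool.Agent.W609.CR Pool.Agent.TH167 Pool.Agent.TH167.SH

/-- The class `(d, w)` is nef at the points `P`. -/
def NefAt {K : Type} [Field K] {s : ℕ} (P : Fin s → Fin 2 → K) (d : ℕ) (w : Fin s → ℕ) : Prop :=
  ∀ (G : MvPolynomial (Fin 3) K) (e : ℕ) (u : Fin s → ℕ), Irreducible G → G.IsHomogeneous e →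
    (∀ j, Ord (aff (P j)) (u j) G) → 0 ≤ ip d w e u

theorem ip_line {s : ℕ} {i j : Fin s} (hij : i ≠ j) (d : ℕ) (w : Fin s → ℕ) :
    ip d w 1 (fun l => if l = i ∨ l = j then 1 else 0) = (d : ℤ) - w i - w j := by
  unfold ip
  have h1 : ∑ l, (w l : ℤ) * (((if l = i ∨ l = j then 1 else 0 : ℕ)) : ℤ) =
      ((∑ l, (if l = i ∨ l = j then 1 else 0) * w l : ℕ) : ℤ) := by
    rw [Nat.cast_sum]
    refine Finset.sum_congr rfl fun l _ => ?_
    rw [Nat.cast_mul, mul_comm]
  have h2 : ∑ j_1, (w j_1 : ℤ) * ↑((fun l => if l = i ∨ l = j then 1 else 0 : Fin s → ℕ) j_1) =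
      ((∑ l, (if l = i ∨ l = j then 1 else 0) * w l : ℕ) : ℤ) := h1
  rw [h2, sum_two hij]
  push_cast
  ring

theorem NefAt.pair {K : Type} [Field K] [CharZero K] {s : ℕ} {P : Fin s → Fin 2 → K}
    (hP : AlgebraicIndependent ℚ (fun ij : Fin s × Fin 2 => P ij.1 ij.2)) {d : ℕ} {w : Fin s → ℕ}
    (h : NefAt P d w) {i j : Fin s} (hij : i ≠ j) : w i + w j ≤ d := by
  have hE := exc_line hP hij
  have h1 := h _ _ _ hE.irr hE.hom hE.ord
  rw [ip_line hij] at h1
  omega

theorem NefAt.ps {K : Type} [Field K] [CharZero K] {s : ℕ} {P : Fin s → Fin 2 → K}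
    (hP : AlgebraicIndependent ℚ (fun ij : Fin s × Fin 2 => P ij.1 ij.2)) {d : ℕ} {w : Fin s → ℕ}
    (h : NefAt P d w) {i : Fin 3 → Fin s} (hi : Function.Injective i) : PS i d w :=
  ⟨h.pair hP (ne10 hi).symm, h.pair hP (ne20 hi).symm, h.pair hP (ne21 hi).symm⟩

/-- An irreducible curve which meets the line through two generic points negatively is this
line. -/
theorem line_of {K : Type} [Field K] [CharZero K] {s : ℕ} {P : Fin s → Fin 2 → K}
    (hP : AlgebraicIndependent ℚ (fun ij : Fin s × Fin 2 => P ij.1 ij.2))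
    {C : MvPolynomial (Fin 3) K} {e : ℕ} {u : Fin s → ℕ} (hC : Irreducible C)
    (hCe : C.IsHomogeneous e) (hu : ∀ j, Ord (aff (P j)) (u j) C) {i j : Fin s} (hij : i ≠ j)
    (h : e < u i + u j) : e = 1 ∧ u = fun l => if l = i ∨ l = j then 1 else 0 := by
  rcases pair_irr (inj_of_alg hP) hC hCe hu hij with h1 | ⟨h1, h2, h3⟩
  · omega
  subst h1
  refine ⟨rfl, ?_⟩
  have hle : ∀ l, u l ≤ 1 := by
    intro l
    by_contra hcon
    push Not at hcon
    exact line_mult hC.ne_zero hCe (van_mono (by omega : 1 + 1 ≤ u l) (hu l).1)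
  funext l
  by_cases hl : l = i ∨ l = j
  · rw [if_pos hl]
    have := hle l
    rcases hl with hl | hl <;> rw [hl] at this ⊢ <;> omega
  · rw [if_neg hl]
    by_contra hcon
    push Not at hl
    refine line_two hP hC.ne_zero hCe ![i, j, l] ?_ ?_
    · intro a b hab'
      fin_cases a <;> fin_cases b <;>
        simp [hij, hij.symm, hl.1, hl.2, hl.1.symm, hl.2.symm] at hab' ⊢
    · intro k
      fin_cases k
      · exact van_mono h2 (hu i).1
      · exact van_mono h3 (hu j).1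
      · exact van_mono (by omega : 1 ≤ u l) (hu l).1

/-- The quadratic transform of a nef class is nef. -/
theorem NefAt.cr {K : Type} [Field K] [CharZero K] {s : ℕ} {P P' : Fin s → Fin 2 → K}
    (hP : AlgebraicIndependent ℚ (fun ij : Fin s × Fin 2 => P ij.1 ij.2))
    (hP' : AlgebraicIndependent ℚ (fun ij : Fin s × Fin 2 => P' ij.1 ij.2))
    {i : Fin 3 → Fin s} (hr : CRel P P' i) {d : ℕ} {w : Fin s → ℕ} (h : NefAt P d w) :
    NefAt P' (cd i d w) (wcr d i w) := by
  intro G e u hG hGe hu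
  have hi := hr.inj
  have p := h.ps hP hi
  by_cases q : PS i e u
  · obtain ⟨G', h1, h2, h3⟩ := hr.symm.irr hG hGe hu q.p01 q.p02 q.p12
    have h4 := h G' _ _ h1 h2 h3
    have h5 := ip_cr hi p (q.cr hi)
    rw [cd_cr hi q, wcr_cr hi q] at h5
    rw [h5]
    exact h4
  · have key : ∀ x y : Fin 3, x ≠ y → e < u (i x) + u (i y) →
        0 ≤ ip (cd i d w) (wcr d i w) e u := by
      intro x y hxy hlt
      have hne : i x ≠ i y := fun h => hxy (hi h)
      obtain ⟨rfl, rfl⟩ := line_of hP' hG hGe hu hne hlt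
      rw [ip_line hne, cd_cast p, wcr_cast hi p, wcr_cast hi p]
      have hb : ∀ z : Fin 3, ic i (i z) = 1 := by
        intro z
        fin_cases z
        · exact (ic_base i).1
        · exact (ic_base i).2.1
        · exact (ic_base i).2.2
      rw [hb, hb]
      unfold dl
      fin_cases x <;> fin_cases y <;> simp at hxy ⊢ <;> omega
    have hq : ¬ (u (i 0) + u (i 1) ≤ e ∧ u (i 0) + u (i 2) ≤ e ∧ u (i 1) + u (i 2) ≤ e) :=
      fun h => q ⟨h.1, h.2.1, h.2.2⟩
    by_cases c1 : u (i 0) + u (i 1) ≤ e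
    · by_cases c2 : u (i 0) + u (i 2) ≤ e
      · by_cases c3 : u (i 1) + u (i 2) ≤ e
        · exact absurd ⟨c1, c2, c3⟩ hq
        · exact key 1 2 (by decide) (by omega)
      · exact key 0 2 (by decide) (by omega)
    · exact key 0 1 (by decide) (by omega)

/-- The reflection of the class `a` in `H - E_(i 0) - E_(i 1) - E_(i 2)`. -/
def refl {s : ℕ} (i : Fin 3 → Fin s) (a : ℤ × (Fin s → ℤ)) : ℤ × (Fin s → ℤ) :=
  (a.1 + (a.1 - a.2 (i 0) - a.2 (i 1) - a.2 (i 2)),
    fun l => a.2 l + if l = i 0 ∨ l = i 1 ∨ l = i 2 then a.1 - a.2 (i 0) - a.2 (i 1) - a.2 (i 2)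
      else 0)

/-- One reflection. -/
def Step {s : ℕ} (a b : ℤ × (Fin s → ℤ)) : Prop :=
  ∃ i : Fin 3 → Fin s, Function.Injective i ∧ b = refl i a

/-- The class with natural coordinates. -/
def cls {s : ℕ} (d : ℕ) (w : Fin s → ℕ) : ℤ × (Fin s → ℤ) := (d, fun l => w l)

theorem refl_cls {s : ℕ} {i : Fin 3 → Fin s} (hi : Function.Injective i) {d : ℕ}
    {w : Fin s → ℕ} (p : PS i d w) : refl i (cls d w) = cls (cd i d w) (wcr d i w) := by
  unfold refl cls
  refine Prod.ext ?_ ?_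
  · show (d : ℤ) + ((d : ℤ) - w (i 0) - w (i 1) - w (i 2)) = (cd i d w : ℤ)
    rw [cd_cast p]
    rfl
  · funext l
    show (w l : ℤ) + (if l = i 0 ∨ l = i 1 ∨ l = i 2 then
      (d : ℤ) - w (i 0) - w (i 1) - w (i 2) else 0) = (wcr d i w l : ℤ)
    rw [wcr_cast hi p]
    unfold ic dl
    split_ifs <;> ring

theorem cls_inj {s : ℕ} {d d' : ℕ} {w w' : Fin s → ℕ} (h : cls d w = cls d' w') :
    d = d' ∧ w = w' := by
  unfold cls at h
  obtain ⟨h1, h2⟩ := Prod.mk.inj h
  refine ⟨by exact_mod_cast h1, ?_⟩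
  funext l
  have := congrFun h2 l
  exact_mod_cast this

/-- **Chains of reflections starting from a nef class.** -/
theorem chain {K : Type} [Field K] [CharZero K] {s : ℕ} {P : Fin s → Fin 2 → K}
    (hP : AlgebraicIndependent ℚ (fun ij : Fin s × Fin 2 => P ij.1 ij.2)) {d : ℕ} {w : Fin s → ℕ}
    (h : NefAt P d w) {b : ℤ × (Fin s → ℤ)} (hb : Relation.ReflTransGen Step (cls d w) b) :
    ∃ (P' : Fin s → Fin 2 → K) (d' : ℕ) (w' : Fin s → ℕ),
      AlgebraicIndependent ℚ (fun ij : Fin s × Fin 2 => P' ij.1 ij.2) ∧ NefAt P' d' w' ∧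
      b = cls d' w' ∧ chi d' w' = chi d w ∧
      Module.finrank K ↥(VS (fun j => aff (P' j)) w' d') =
        Module.finrank K ↥(VS (fun j => aff (P j)) w d) := by
  induction hb with
  | refl => exact ⟨P, d, w, hP, h, rfl, rfl, rfl⟩
  | @tail b c _ hbc ih =>
    obtain ⟨P1, d1, w1, hP1, hN1, rfl, hc1, hd1⟩ := ih
    obtain ⟨i, hi, rfl⟩ := hbc
    obtain ⟨P2, hP2, hr⟩ := exists_crel hP1 hi
    have p := hN1.ps hP1 hi
    refine ⟨P2, cd i d1 w1, wcr d1 i w1, hP2, hN1.cr hP1 hP2 hr, refl_cls hi p, ?_, ?_⟩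
    · rw [← hc1]
      have h1 := ip_cr hi p p
      have h2 := kk_cr hi p
      have h3 := two_chi (cd i d1 w1) (wcr d1 i w1)
      rw [h1, h2, ← two_chi] at h3
      exact mul_left_cancel₀ two_ne_zero h3
    · rw [← hd1]
      exact hr.dim p

end Pool.Agent.TH442.NF
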