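import Pool.Agent.TH442.NF.Orbit

set_option autoImplicit false

/-!
# From generic points to an open set
-/

namespace Pool.Agent.TH442.NF

open MvPolynomial Pool.Agent.W609 Pool.Agent.W609.CR Pool.Agent.TH167 Pool.Agent.TH167.SH
  Pool.Agent.H932R3

/-- The generic points. -/
theorem exists_generic (n : ℕ) : ∃ (K : Type) (_ : Field K) (_ : CharZero K)
    (P : Fin n → Fin 2 → K), AlgebraicIndependent ℚ (fun ij : Fin n × Fin 2 => P ij.1 ij.2) := by
  refine ⟨FractionRing (MvPolynomial (Fin n × Fin 2) ℚ), inferInstance, ?_,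
    fun i j => algebraMap (MvPolynomial (Fin n × Fin 2) ℚ) _ (MvPolynomial.X (i, j)), ?_⟩
  · exact charZero_of_injective_algebraMap
      (IsFractionRing.injective (MvPolynomial (Fin n × Fin 2) ℚ)
        (FractionRing (MvPolynomial (Fin n × Fin 2) ℚ)))
  · have h := (MvPolynomial.algebraicIndependent_X (Fin n × Fin 2) ℚ).map'
      (f := IsScalarTower.toAlgHom ℚ (MvPolynomial (Fin n × Fin 2) ℚ)
        (FractionRing (MvPolynomial (Fin n × Fin 2) ℚ)))
      (IsFractionRing.injective (MvPolynomial (Fin n × Fin 2) ℚ)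
        (FractionRing (MvPolynomial (Fin n × Fin 2) ℚ)))
    exact h

/-- **The orbits of uniform classes**, on an open set of points. -/
theorem orbit_open {n : ℕ} (hn : 37 ≤ n) {d : ℕ} {w : Fin n → ℕ} {d' m : ℕ}
    (h : Ch (cls d w) (cls d' (fun _ => m))) :
    ∃ F : MvPolynomial (Fin n × Fin 2) ℚ, F ≠ 0 ∧ ∀ {L : Type} [Field L] [CharZero L]
      (P : Fin n → Fin 2 → L),
      MvPolynomial.aeval (fun ij : Fin n × Fin 2 => P ij.1 ij.2) F ≠ 0 → ExpDim L w P d := by
  obtain ⟨g, F, hF, hF'⟩ := dim_gen w d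
  obtain ⟨K, _, _, P0, hP0⟩ := exists_generic n
  have h1 := orbit hn hP0 h
  rw [expDim_iff, hF' K P0 fun h0 => hF (hP0.eq_zero_of_aeval_eq_zero F h0)] at h1
  refine ⟨F, hF, fun {L} _ _ P hP => ?_⟩
  rw [expDim_iff, hF' L P hP]
  exact h1

theorem not_special {L : Type} [Field L] {n : ℕ} {w : Fin n → ℕ} {P : Fin n → Fin 2 → L} {d : ℕ}
    (h : ExpDim L w P d) : ¬ SHDefs.Special P d w := by
  rw [special_conv]
  unfold SH.Special
  rw [not_not]
  rw [expDim_iff] at h
  exact h

end Pool.Agent.TH442.NF
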