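import Pool.Agent.TH442.NF.Nef
import Pool.Agent.TH442.NF.Fin
import Pool.Agent.TH142.NU.Self
import Pool.Agent.TH760.EN.Asm

set_option autoImplicit false

/-!
# The Weyl group orbits of uniform classes
-/

namespace Pool.Agent.TH442.NF

open MvPolynomial Pool.Agent.W609 Pool.Agent.W609.CR Pool.Agent.TH167 Pool.Agent.TH167.SH
  Pool.Agent.H932R3

/-- The intersection form. -/
def bil {s : ℕ} (a b : ℤ × (Fin s → ℤ)) : ℤ := a.1 * b.1 - ∑ l, a.2 l * b.2 l

/-- The intersection number with `-K`. -/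
def kap {s : ℕ} (a : ℤ × (Fin s → ℤ)) : ℤ := 3 * a.1 - ∑ l, a.2 l

theorem bil_cls {s : ℕ} (d e : ℕ) (w u : Fin s → ℕ) : bil (cls d w) (cls e u) = ip d w e u := rfl

theorem kap_cls {s : ℕ} (d : ℕ) (w : Fin s → ℕ) : kap (cls d w) = kk d w := rfl

/-- The change of the coordinates. -/
def del {s : ℕ} (i : Fin 3 → Fin s) (a : ℤ × (Fin s → ℤ)) : ℤ :=
  a.1 - a.2 (i 0) - a.2 (i 1) - a.2 (i 2)

theorem refl_fst {s : ℕ} (i : Fin 3 → Fin s) (a : ℤ × (Fin s → ℤ)) :
    (refl i a).1 = a.1 + del i a := rfl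

theorem refl_snd {s : ℕ} (i : Fin 3 → Fin s) (a : ℤ × (Fin s → ℤ)) (l : Fin s) :
    (refl i a).2 l = a.2 l + del i a * ic i l := by
  show a.2 l + (if l = i 0 ∨ l = i 1 ∨ l = i 2 then a.1 - a.2 (i 0) - a.2 (i 1) - a.2 (i 2)
    else 0) = _
  unfold ic del
  split_ifs <;> ring

theorem del_refl {s : ℕ} (i : Fin 3 → Fin s) (a : ℤ × (Fin s → ℤ)) :
    del i (refl i a) = - del i a := by
  obtain ⟨h0, h1, h2⟩ := ic_base i
  have h : del i (refl i a) = (refl i a).1 - (refl i a).2 (i 0) - (refl i a).2 (i 1) -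
      (refl i a).2 (i 2) := rfl
  rw [h, refl_fst, refl_snd, refl_snd, refl_snd, h0, h1, h2]
  unfold del
  ring

theorem refl_refl {s : ℕ} (i : Fin 3 → Fin s) (a : ℤ × (Fin s → ℤ)) : refl i (refl i a) = a := by
  refine Prod.ext ?_ ?_
  · rw [refl_fst, refl_fst, del_refl]
    ring
  · funext l
    rw [refl_snd, refl_snd, del_refl]
    ring

theorem bil_refl {s : ℕ} {i : Fin 3 → Fin s} (hi : Function.Injective i)
    (a b : ℤ × (Fin s → ℤ)) : bil (refl i a) (refl i b) = bil a b := by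
  unfold bil
  rw [refl_fst, refl_fst]
  have h1 : ∀ l, (refl i a).2 l * (refl i b).2 l = a.2 l * b.2 l +
      (del i b * (ic i l * a.2 l) + (del i a * (ic i l * b.2 l) +
        del i a * del i b * (ic i l * 1))) := by
    intro l
    rw [refl_snd, refl_snd]
    have := ic_sq i l
    linear_combination (del i a * del i b) * this
  rw [Finset.sum_congr rfl fun l _ => h1 l, Finset.sum_add_distrib, Finset.sum_add_distrib,
    Finset.sum_add_distrib, ← Finset.mul_sum, ← Finset.mul_sum, ← Finset.mul_sum,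
    sum_ic hi (fun l => a.2 l), sum_ic hi (fun l => b.2 l), sum_ic hi (fun _ => 1)]
  unfold del
  ring

theorem kap_refl {s : ℕ} {i : Fin 3 → Fin s} (hi : Function.Injective i)
    (a : ℤ × (Fin s → ℤ)) : kap (refl i a) = kap a := by
  unfold kap
  rw [refl_fst]
  have h1 : ∀ l, (refl i a).2 l = a.2 l + del i a * (ic i l * 1) := by
    intro l
    rw [refl_snd]
    ring
  rw [Finset.sum_congr rfl fun l _ => h1 l, Finset.sum_add_distrib, ← Finset.mul_sum,
    sum_ic hi (fun _ => 1)]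
  ring

/-- Two classes are carried into each other. -/
def Ch {s : ℕ} (a b : ℤ × (Fin s → ℤ)) : Prop := Relation.ReflTransGen Step a b

theorem step_symm {s : ℕ} {a b : ℤ × (Fin s → ℤ)} (h : Step a b) : Step b a := by
  obtain ⟨i, hi, rfl⟩ := h
  exact ⟨i, hi, (refl_refl i a).symm⟩

theorem Ch.symm {s : ℕ} {a b : ℤ × (Fin s → ℤ)} (h : Ch a b) : Ch b a := by
  unfold Ch at *
  induction h with
  | refl => exact Relation.ReflTransGen.refl
  | tail _ h2 ih => exact (Relation.ReflTransGen.single (step_symm h2)).trans ih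

/-- The chain, applied to another class. -/
theorem Ch.par {s : ℕ} {a b : ℤ × (Fin s → ℤ)} (h : Ch a b) (c : ℤ × (Fin s → ℤ)) :
    ∃ c', Ch c c' ∧ bil b c' = bil a c := by
  unfold Ch at *
  induction h with
  | refl => exact ⟨c, Relation.ReflTransGen.refl, rfl⟩
  | tail _ h2 ih =>
    obtain ⟨c1, h3, h4⟩ := ih
    obtain ⟨i, hi, rfl⟩ := h2
    refine ⟨refl i c1, h3.tail ⟨i, hi, rfl⟩, ?_⟩
    rw [bil_refl hi, h4]

theorem Ch.inv {s : ℕ} {a b : ℤ × (Fin s → ℤ)} (h : Ch a b) :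
    bil b b = bil a a ∧ kap b = kap a := by
  unfold Ch at *
  induction h with
  | refl => exact ⟨rfl, rfl⟩
  | tail _ h2 ih =>
    obtain ⟨i, hi, rfl⟩ := h2
    rw [bil_refl hi, kap_refl hi]
    exact ih

theorem Ch.chi {s : ℕ} {d d' : ℕ} {w w' : Fin s → ℕ} (h : Ch (cls d w) (cls d' w')) :
    chi d' w' = SH.chi d w := by
  obtain ⟨h1, h2⟩ := h.inv
  rw [bil_cls, bil_cls] at h1
  rw [kap_cls, kap_cls] at h2
  have h3 := two_chi d' w'
  rw [h1, h2, ← two_chi] at h3
  exact mul_left_cancel₀ two_ne_zero h3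

theorem ord_ex {K : Type} [Field K] {p : Fin 2 → K} {f : MvPolynomial (Fin 3) K} {d : ℕ}
    (hf0 : f ≠ 0) (hf : f.IsHomogeneous d) : ∃ m, Ord (aff p) m f := by
  classical
  by_contra hcon
  push Not at hcon
  have h : ∀ m, Van (aff p) m f := by
    intro m
    induction m with
    | zero => exact van_zero _ _
    | succ m ih =>
      by_contra h2
      exact hcon m ⟨ih, h2⟩
  have := van_le hf0 hf (h (d + 1))
  omega

theorem ip_add {s : ℕ} (a : ℕ) (v : Fin s → ℕ) (e1 e2 : ℕ) (u1 u2 : Fin s → ℕ) :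
    ip a v (e1 + e2) (fun j => u1 j + u2 j) = ip a v e1 u1 + ip a v e2 u2 := by
  unfold ip
  have h1 : ∀ j, (v j : ℤ) * ((u1 j + u2 j : ℕ) : ℤ) = (v j : ℤ) * u1 j + (v j : ℤ) * u2 j := by
    intro j
    push_cast
    ring
  rw [Finset.sum_congr rfl fun j _ => h1 j, Finset.sum_add_distrib]
  push_cast
  ring

theorem ip_comm {s : ℕ} (a : ℕ) (v : Fin s → ℕ) (d : ℕ) (w : Fin s → ℕ) :
    ip a v d w = ip d w a v := by
  unfold ip
  rw [mul_comm, Finset.sum_congr rfl fun j _ => mul_comm (v j : ℤ) (w j : ℤ)]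

/-- A nef class meets every effective class nonnegatively. -/
theorem nef_eff {K : Type} [Field K] {s : ℕ} {P : Fin s → Fin 2 → K} {a : ℕ} {v : Fin s → ℕ}
    (h : NefAt P a v) (G : MvPolynomial (Fin 3) K) :
    G ≠ 0 → ∀ (d : ℕ) (u : Fin s → ℕ), G.IsHomogeneous d → (∀ j, Ord (aff (P j)) (u j) G) →
      0 ≤ ip a v d u := by
  refine WfDvdMonoid.induction_on_irreducible G ?_ ?_ ?_
  · intro h0
    exact absurd rfl h0
  · intro g hg h0 d u hd hu
    have h1 : g.totalDegree = 0 := (MvPolynomial.isUnit_iff_totalDegree_of_isReduced.1 hg).2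
    have h2 : d = 0 := by rw [← hd.totalDegree h0, h1]
    have h3 : ∀ j, u j = 0 := by
      intro j
      by_contra hcon
      have h4 : Van (aff (P j)) 1 g := van_mono (by omega : 1 ≤ u j) (hu j).1
      rw [van_one] at h4
      have h5 := hg.map (MvPolynomial.eval (aff (P j)))
      rw [h4] at h5
      exact not_isUnit_zero h5
    unfold ip
    rw [h2, Finset.sum_eq_zero fun j _ => by rw [h3 j]; simp]
    simp
  · intro g i hg0 hi ih hne d u hd hu
    have hi0 : i ≠ 0 := hi.ne_zero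
    have c1 := Pool.Agent.Chud.homog_of_dvd hd hne (Dvd.intro _ rfl : i ∣ i * g)
    have c2 := Pool.Agent.Chud.homog_of_dvd hd hne (Dvd.intro_left _ rfl : g ∣ i * g)
    have c3 : d = i.totalDegree + g.totalDegree := by
      rw [← hd.totalDegree hne, MvPolynomial.totalDegree_mul_of_isDomain hi0 hg0]
    choose u1 hu1 using fun j => ord_ex (p := P j) hi0 c1
    choose u2 hu2 using fun j => ord_ex (p := P j) hg0 c2
    have c4 : u = fun j => u1 j + u2 j := by
      funext j
      exact ord_unique (hu j) (ord_mul (hu1 j) (hu2 j))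
    rw [c3, c4, ip_add]
    exact add_nonneg (h i _ u1 hi c1 hu1) (ih hg0 _ u2 c2 hu2)

/-- No forms in a class which meets a nef class negatively. -/
theorem no_form {K : Type} [Field K] {s : ℕ} {P : Fin s → Fin 2 → K} {a : ℕ} {v : Fin s → ℕ}
    (h : NefAt P a v) {d : ℕ} {w : Fin s → ℕ} (hneg : ip a v d w < 0) :
    Module.finrank K ↥(VS (fun j => aff (P j)) w d) = 0 := by
  have hbot : VS (fun j => aff (P j)) w d = ⊥ := by
    rw [Submodule.eq_bot_iff]
    intro G hG
    by_contra hG0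
    rw [mem_VS] at hG
    choose u hu using fun j => ord_ex (p := P j) hG0 hG.1
    have h1 := nef_eff h G hG0 d u hG.1 hu
    have h2 : ∀ j, w j ≤ u j := by
      intro j
      have e1 := (van_iff _ _ _).1 (hG.2 j)
      rw [(ord_iff _ _ _).1 (hu j)] at e1
      exact_mod_cast e1
    have h3 : ip a v d u ≤ ip a v d w := by
      unfold ip
      have : ∑ j, (v j : ℤ) * (w j : ℤ) ≤ ∑ j, (v j : ℤ) * (u j : ℤ) := by
        refine Finset.sum_le_sum fun j _ => ?_
        exact mul_le_mul_of_nonneg_left (by exact_mod_cast h2 j) (Nat.cast_nonneg _)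
      omega
    omega
  rw [hbot]
  exact finrank_bot K _

/-- Uniform classes are nef, by Nagata's inequality. -/
theorem uni_nef {K : Type} [Field K] [CharZero K] {n : ℕ} (hn : 10 ≤ n) {P : Fin n → Fin 2 → K}
    (hP : AlgebraicIndependent ℚ (fun ij : Fin n × Fin 2 => P ij.1 ij.2)) {d m : ℕ}
    (h : √(n : ℝ) * m ≤ d) : NefAt P d (fun _ => m) := by
  intro G e u hG hGe hu
  have hip : ip d (fun _ => m) e u = (d : ℤ) * e - m * ((∑ j, u j : ℕ) : ℤ) := by
    unfold ip
    rw [← Finset.mul_sum]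
    push_cast
    rfl
  rw [hip]
  rcases Nat.eq_zero_or_pos (∑ j, u j) with h0 | h0
  · rw [h0]
    simp only [Nat.cast_zero, mul_zero, sub_zero]
    positivity
  · have h1 := Pool.Agent.TH142.NU.nagata_strict hn hP hG.ne_zero hGe
      (fun i => (t_link K (P i) (u i) G e hGe).1 (hu i).1) h0
    have h2 : (m : ℝ) * ((∑ j, u j : ℕ) : ℝ) ≤ d * e := by
      calc (m : ℝ) * ((∑ j, u j : ℕ) : ℝ) ≤ m * (√(n : ℝ) * e) :=
            mul_le_mul_of_nonneg_left h1.le (Nat.cast_nonneg _)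
        _ = (√(n : ℝ) * m) * e := by ring
        _ ≤ d * e := mul_le_mul_of_nonneg_right h (Nat.cast_nonneg _)
    have h3 : m * (∑ j, u j) ≤ d * e := by exact_mod_cast h2
    have h4 : ((m * (∑ j, u j) : ℕ) : ℤ) ≤ ((d * e : ℕ) : ℤ) := by exact_mod_cast h3
    push_cast at h4 ⊢
    omega

/-- The dimension is the same at all generic points. -/
theorem dim_same {K : Type} [Field K] [CharZero K] {n : ℕ} {P P' : Fin n → Fin 2 → K}
    (hP : AlgebraicIndependent ℚ (fun ij : Fin n × Fin 2 => P ij.1 ij.2))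
    (hP' : AlgebraicIndependent ℚ (fun ij : Fin n × Fin 2 => P' ij.1 ij.2)) (d : ℕ)
    (w : Fin n → ℕ) :
    Module.finrank K ↥(VS (fun j => aff (P j)) w d) =
      Module.finrank K ↥(VS (fun j => aff (P' j)) w d) := by
  obtain ⟨g, F, hF, h⟩ := dim_gen w d
  rw [h K P fun h0 => hF (hP.eq_zero_of_aeval_eq_zero F h0),
    h K P' fun h0 => hF (hP'.eq_zero_of_aeval_eq_zero F h0)]

theorem exp_zero {K : Type} [Field K] {n : ℕ} (P : Fin n → Fin 2 → K) (d : ℕ) :
    ExpDim K (fun _ => 0) P d := by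
  unfold ExpDim
  have h1 : (⨅ i : Fin n, (Ideal.span
      ({MvPolynomial.X 0 - MvPolynomial.C (P i 0) * MvPolynomial.X 2,
        MvPolynomial.X 1 - MvPolynomial.C (P i 1) * MvPolynomial.X 2} :
          Set (MvPolynomial (Fin 3) K))) ^ 0) = ⊤ := by simp
  rw [h1]
  have h2 : (Submodule.restrictScalars K (⊤ : Ideal (MvPolynomial (Fin 3) K))) = ⊤ := by
    ext x
    simp
  rw [h2, inf_top_eq, Pool.Agent.TH603.Sur.finrank_forms]
  simp

/-- **The orbits of uniform classes.** -/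
theorem orbit {K : Type} [Field K] [CharZero K] {n : ℕ} (hn : 37 ≤ n) {P : Fin n → Fin 2 → K}
    (hP : AlgebraicIndependent ℚ (fun ij : Fin n × Fin 2 => P ij.1 ij.2)) {d : ℕ} {w : Fin n → ℕ}
    {d' m : ℕ} (h : Ch (cls d w) (cls d' (fun _ => m))) : ExpDim K w P d := by
  have hnR : (37 : ℝ) ≤ n := by exact_mod_cast hn
  have hchi := h.chi
  rcases le_or_gt (√(n : ℝ) * m) d' with hA | hB
  · have hN := uni_nef (by omega) hP hA
    obtain ⟨P1, d1, w1, hP1, -, he, hc, hd⟩ := chain hP hN h.symm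
    obtain ⟨rfl, rfl⟩ := cls_inj he
    have hE : ExpDim K (fun _ => m) P d' := by
      rcases Nat.eq_zero_or_pos m with h0 | h0
      · subst h0
        exact exp_zero P d'
      · obtain ⟨F, hF, hF'⟩ := Pool.Agent.TH760.EN.expDim37 hn h0 (L := K)
        exact hF' P (fun h0 => hF (hP.eq_zero_of_aeval_eq_zero F h0)) d'
    rw [expDim_iff] at hE ⊢
    rw [dim_same hP hP1, hd, hE, hc]
  · obtain ⟨s, hs⟩ : ∃ s, s = √(n : ℝ) := ⟨_, rfl⟩
    have hss : s * s = n := by rw [hs]; exact Real.mul_self_sqrt (by linarith)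
    have hs6 : 6 ≤ s := by rw [hs]; exact Real.le_sqrt_of_sq_le (by norm_num; linarith)
    rw [← hs] at hB
    have hs0 : 0 < s := by linarith
    have hm0 : 0 < m := by
      rcases Nat.eq_zero_or_pos m with h0 | h0
      · rw [h0, Nat.cast_zero, mul_zero] at hB
        exact absurd hB (not_lt.2 (Nat.cast_nonneg _))
      · exact h0
    have hmR : (1 : ℝ) ≤ m := by exact_mod_cast hm0
    -- the Euler characteristic
    have hchi0 : chi d' (fun _ : Fin n => m) ≤ 0 := by
      have h2 := two_chi d' (fun _ : Fin n => m)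
      unfold ip kk at h2
      simp only [Finset.sum_const, Finset.card_univ, Fintype.card_fin, nsmul_eq_mul] at h2
      have h3 : (d' : ℝ) * d' + 3 * d' + 2 ≤ n * (m * m) + n * m := by
        have e1 : (d' : ℝ) * d' ≤ (s * m) * (s * m) :=
          mul_self_le_mul_self (Nat.cast_nonneg _) hB.le
        have e2 : (s * m) * (s * m) = n * (m * m) := by rw [← hss]; ring
        have e3 : 3 * (d' : ℝ) + 2 ≤ n * m := by
          rw [← hss]
          nlinarith
        linarith
      have h4 : (d' : ℤ) * d' + 3 * d' + 2 ≤ n * (m * m) + n * m := by exact_mod_cast h3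
      omega
    -- a nef class
    obtain ⟨ε, hε⟩ : ∃ ε, ε = s * m - d' := ⟨_, rfl⟩
    have hε0 : 0 < ε := by rw [hε]; linarith
    obtain ⟨b, hb⟩ : ∃ b : ℕ, b = ⌈(d' : ℝ) / (s * ε)⌉₊ + 1 := ⟨_, rfl⟩
    obtain ⟨a, ha⟩ : ∃ a : ℕ, a = ⌈s * b⌉₊ := ⟨_, rfl⟩
    have hb1 : 1 ≤ b := by omega
    have hbR : (1 : ℝ) ≤ b := by exact_mod_cast hb1
    have hb2 : (d' : ℝ) ≤ s * ε * b := by
      have h1 := Nat.le_ceil ((d' : ℝ) / (s * ε))
      rw [div_le_iff₀ (by positivity)] at h1
      have h2 : (b : ℝ) = ⌈(d' : ℝ) / (s * ε)⌉₊ + 1 := by rw [hb]; push_cast; rfl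
      rw [h2]
      have : 0 < s * ε := by positivity
      nlinarith
    have ha1 : s * b ≤ a := by rw [ha]; exact Nat.le_ceil _
    have ha2 : (a : ℝ) < s * b + 1 := by rw [ha]; exact Nat.ceil_lt_add_one (by positivity)
    have hlt : (a : ℝ) * d' < n * (b * m) := by
      have e1 : s * b * d' + s * b * ε = n * (b * m) := by rw [hε, ← hss]; ring
      rcases Nat.eq_zero_or_pos d' with h0 | h0
      · rw [h0]
        simp only [Nat.cast_zero, mul_zero]
        positivity
      · have hd0 : (0 : ℝ) < d' := by exact_mod_cast h0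
        have e2 : (a : ℝ) * d' < (s * b + 1) * d' := mul_lt_mul_of_pos_right ha2 hd0
        nlinarith
    have hN := uni_nef (K := K) (n := n) (by omega) hP (d := a) (m := b) (by rw [← hs]; exact ha1)
    obtain ⟨c', hc1, hc2⟩ := h.symm.par (cls a (fun _ => b))
    obtain ⟨P1, a1, v1, hP1, hN1, rfl, -, -⟩ := chain hP hN hc1
    have hneg : ip a1 v1 d w < 0 := by
      rw [ip_comm]
      rw [bil_cls, bil_cls] at hc2
      rw [hc2]
      unfold ip
      simp only [Finset.sum_const, Finset.card_univ, Fintype.card_fin, nsmul_eq_mul]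
      have h1 : (a : ℤ) * d' < n * (b * m) := by exact_mod_cast hlt
      nlinarith
    rw [expDim_iff, dim_same hP hP1, no_form hN1 hneg]
    rw [hchi] at hchi0
    rw [max_eq_left hchi0]
    rfl

end Pool.Agent.TH442.NF
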